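import Pool.Agent.Lib.SS3.Main
import Pool.Agent.Lib.SS3.Fcc

/-! The face-centred cubic lattice minimises the sum of `|q|^(-a)` for every real `a > 3`. -/

open MeasureTheory

namespace Pool.Agent.Results.MP_3a1514_mp.AllExponents

open Pool.Agent.Lib.SS3

theorem result (a : ℝ) (ha : 3 < a) (L F : Submodule ℤ E) [DiscreteTopology L] [IsZLattice ℝ L]
    (hF : IsFCC F) (h : ZLattice.covolume F volume = ZLattice.covolume L volume) :
    Z a F ≤ Z a L :=
  st_FCC st_Y a ha L F hF h

end Pool.Agent.Results.MP_3a1514_mp.AllExponents
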