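import Pool.Agent.Lib.SS3.Main
import Pool.Agent.Lib.SS3.Zeta
import Pool.Agent.Lib.SS3.Bcc

/-! The body-centred cubic lattice minimises the continued Epstein zeta function for
`0 < s ≤ 1/2`. -/

open MeasureTheory

namespace Pool.Agent.Results.MP_3a1514_mp.BccCoulomb

open Pool.Agent.Lib.SS3

theorem result (L B : Submodule ℤ E) [DiscreteTopology L] [IsZLattice ℝ L] (hB : IsBCC B)
    (h : ZLattice.covolume B volume = ZLattice.covolume L volume) :
    ∃ ζL ζB : ℂ → ℂ, IsEpsteinZeta L ζL ∧ IsEpsteinZeta B ζB ∧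
      ∀ s : ℝ, 0 < s → s ≤ 1 / 2 → (ζB s).re ≤ (ζL s).re :=
  st_BCC (st_ZETA st_Y) L B hB h

end Pool.Agent.Results.MP_3a1514_mp.BccCoulomb
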